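import Pool.Agent.Helper35.PQF.St

/-! Module RA3 of the project PM (MP_d112a4_gt, owner helper35). -/

namespace Helper18.PM

open Pool.Agent.Helper35.PM Set

/-- A sequence bounded below with nonpositive second differences is monotone. -/
theorem mono_of_concave (a : ℕ → ℝ) (L : ℝ) (hL : ∀ k, L ≤ a k)
    (h : ∀ k, a k + a (k + 2) ≤ 2 * a (k + 1)) : ∀ k, a k ≤ a (k + 1) := by
  intro k
  by_contra hk
  push Not at hk
  have h1 : ∀ j, a (k + j + 1) - a (k + j) ≤ a (k + 1) - a k := by
    intro j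
    induction j with
    | zero => exact le_refl _
    | succ j ih =>
      have := h (k + j)
      have e1 : k + (j + 1) + 1 = k + j + 2 := by ring
      have e2 : k + (j + 1) = k + j + 1 := by ring
      rw [e1, e2]
      linarith
  have h2 : ∀ j : ℕ, a (k + j) ≤ a k + j * (a (k + 1) - a k) := by
    intro j
    induction j with
    | zero => simp
    | succ j ih =>
      have := h1 j
      have e2 : k + (j + 1) = k + j + 1 := by ring
      rw [e2]
      push_cast
      linarith
  obtain ⟨j, hj⟩ := exists_nat_gt ((a k - L) / (a k - a (k + 1)))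
  have hpos : 0 < a k - a (k + 1) := by linarith
  rw [div_lt_iff₀ hpos] at hj
  have := h2 j
  have := hL (k + j)
  linarith

theorem second_diff (x d : ℝ) (hx : x < 0) (hd : 0 < d) (hdx : d < -x) :
    6 * d ^ 2 / x ^ 4 ≤ 1 / (x + d) ^ 2 + 1 / (x - d) ^ 2 - 2 / x ^ 2 := by
  have h1 : x + d ≠ 0 := by linarith
  have h2 : x - d ≠ 0 := by linarith
  have h3 : x ≠ 0 := by linarith
  have key : 1 / (x + d) ^ 2 + 1 / (x - d) ^ 2 - 2 / x ^ 2 - 6 * d ^ 2 / x ^ 4 =
      d ^ 4 * (10 * x ^ 2 - 6 * d ^ 2) / (x ^ 4 * ((x + d) ^ 2 * (x - d) ^ 2)) := by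
    field_simp
    ring
  have h4 : 0 ≤ 10 * x ^ 2 - 6 * d ^ 2 := by nlinarith
  have h5 : 0 ≤ d ^ 4 * (10 * x ^ 2 - 6 * d ^ 2) / (x ^ 4 * ((x + d) ^ 2 * (x - d) ^ 2)) := by
    positivity
  linarith

theorem ra3 : St_RA3 := by
  intro M h0 hB hM x hx x' hx' hxx
  simp only [mem_Iio] at hx hx'
  rcases eq_or_lt_of_le hxx with rfl | hlt
  · exact le_refl _
  obtain ⟨B, hBb⟩ := hB x' hx'
  have hB0 : 0 ≤ B := le_trans (h0 x' hx') (hBb x' le_rfl)
  -- the estimate for every large number of steps
  have key : ∀ n : ℕ, 0 < n → (x' - x) / n < -x' / 2 →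
      M x' - M x ≤ 3 / 2 * B * ((x' - x) / n) ^ 2 / x' ^ 2 := by
    intro n hn hn2
    set d : ℝ := (x' - x) / n with hd
    have hn' : (0 : ℝ) < n := by exact_mod_cast hn
    have hdpos : 0 < d := div_pos (by linarith) hn'
    set c : ℝ := 3 / 2 * B * d ^ 2 with hc
    have hc0 : 0 ≤ c := by positivity
    let G : ℝ → ℝ := fun y => M y - c / y ^ 2
    have hpt : ∀ k : ℕ, x' - k * d ≤ x' := by
      intro k
      have : 0 ≤ (k : ℝ) * d := by positivity
      linarith
    have hconc : ∀ y : ℝ, y ≤ x' - d → G (y + d) + G (y - d) ≤ 2 * G y := by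
      intro y hy
      have hy0 : y < 0 := by linarith
      have hdy : d < -y / 2 := by linarith
      have e1 := hM y d hy0 hdpos hdy
      have e2 := second_diff y d hy0 hdpos (by linarith)
      have e3 : M y ≤ B := hBb y (by linarith)
      have e4 : 9 * (d / (-y)) ^ 4 * M y ≤ 9 * (d / (-y)) ^ 4 * B :=
        mul_le_mul_of_nonneg_left e3 (by positivity)
      have e5 : 9 * (d / (-y)) ^ 4 * B = c * (6 * d ^ 2 / y ^ 4) := by
        have hy1 : y ≠ 0 := hy0.ne
        rw [hc, div_pow]
        have : (-y) ^ 4 = y ^ 4 := by ring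
        rw [this]
        field_simp
        ring
      have e6 : c * (6 * d ^ 2 / y ^ 4) ≤ c * (1 / (y + d) ^ 2 + 1 / (y - d) ^ 2 - 2 / y ^ 2) :=
        mul_le_mul_of_nonneg_left e2 hc0
      have e7 : c * (1 / (y + d) ^ 2 + 1 / (y - d) ^ 2 - 2 / y ^ 2) =
          c / (y + d) ^ 2 + c / (y - d) ^ 2 - 2 * (c / y ^ 2) := by ring
      change M (y + d) - c / (y + d) ^ 2 + (M (y - d) - c / (y - d) ^ 2) ≤
        2 * (M y - c / y ^ 2)
      linarith
    have hmono := mono_of_concave (fun k => G (x' - k * d)) (-(c / x' ^ 2)) (by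
        intro k
        have e1 : x' - k * d ≤ x' := hpt k
        have e2 : x' - k * d < 0 := by linarith
        have e3 : 0 ≤ M (x' - k * d) := h0 _ e2
        have e4 : c / (x' - k * d) ^ 2 ≤ c / x' ^ 2 := by
          apply div_le_div_of_nonneg_left hc0 (by nlinarith)
          nlinarith
        change -(c / x' ^ 2) ≤ M (x' - k * d) - c / (x' - k * d) ^ 2
        linarith) (by
        intro k
        have e := hconc (x' - (k + 1 : ℕ) * d) (by
          push_cast
          have : 0 ≤ (k : ℝ) * d := by positivity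
          linarith)
        have e1 : x' - (k + 1 : ℕ) * d + d = x' - k * d := by push_cast; ring
        have e2 : x' - (k + 1 : ℕ) * d - d = x' - (k + 2 : ℕ) * d := by push_cast; ring
        rw [e1, e2] at e
        exact e)
    have hall : ∀ k : ℕ, G (x' - (0 : ℕ) * d) ≤ G (x' - k * d) := by
      intro k
      induction k with
      | zero => exact le_refl _
      | succ k ih => exact le_trans ih (hmono k)
    have hfin := hall n
    have e1 : x' - ((0 : ℕ) : ℝ) * d = x' := by simp
    have e2 : x' - (n : ℝ) * d = x := by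
      rw [hd]
      field_simp
      ring
    rw [e1, e2] at hfin
    have e3 : M x' - c / x' ^ 2 ≤ M x - c / x ^ 2 := hfin
    have e4 : 0 ≤ c / x ^ 2 := by positivity
    have e5 : M x' - M x ≤ c / x' ^ 2 := by linarith
    exact e5
  -- let the number of steps tend to infinity
  by_contra hcon
  push Not at hcon
  set r := M x' - M x with hr
  have hrpos : 0 < r := by rw [hr]; linarith
  set C := 3 / 2 * B * (x' - x) ^ 2 / x' ^ 2 with hC
  have hC0 : 0 ≤ C := by positivity
  obtain ⟨n, hn⟩ := exists_nat_gt (max (C / r) (max 1 ((x' - x) / (-x' / 2))))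
  have hn1 : C / r < n := lt_of_le_of_lt (le_max_left _ _) hn
  have hn2 : (1 : ℝ) < n := lt_of_le_of_lt (le_trans (le_max_left _ _) (le_max_right _ _)) hn
  have hn3 : (x' - x) / (-x' / 2) < n :=
    lt_of_le_of_lt (le_trans (le_max_right _ _) (le_max_right _ _)) hn
  have hnpos : (0 : ℝ) < n := by linarith
  have hk := key n (by exact_mod_cast hnpos) (by
    rw [div_lt_iff₀ (by linarith)] at hn3
    rw [div_lt_iff₀ hnpos]
    linarith)
  have hk2 : 3 / 2 * B * ((x' - x) / n) ^ 2 / x' ^ 2 = C / n ^ 2 := by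
    rw [hC, div_pow]
    field_simp
  rw [hk2] at hk
  rw [div_lt_iff₀ hrpos] at hn1
  have hn4 : C / n ^ 2 ≤ C / n := by
    apply div_le_div_of_nonneg_left hC0 hnpos
    nlinarith
  have hn5 : C / n < r := by
    rw [div_lt_iff₀ hnpos]
    linarith
  linarith

end Helper18.PM
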